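import Pool.Agent.X54.NearD

/-!
# MP_635878_co, Q1: `R_n` maximises the average size of 1-nearly independent sets of trees

Full positive answer.  For every edge `ab` of a tree `T` the nearly independent sets with edge
`ab` have average size at most `(n+1)/2 - 1/3`, unless `T` is `R_n`; this settles `n = 4`, `n = 5`
and `n ≥ 10`, and the cases `6 ≤ n ≤ 9` are a computation over all parent functions, done in the
kernel with a transfer recursion.
-/

set_option autoImplicit false

namespace Pool.Agent.Results.MP_635878_co.AverageSize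

open Finset
open scoped Classical

/-- `S` is 1-nearly independent in `G`: the induced subgraph has exactly one edge. -/
def NearlyIndependent {V : Type} (G : SimpleGraph V) (S : Finset V) : Prop :=
  (G.induce (S : Set V)).edgeSet.ncard = 1

/-- `σ₁(G)`, the number of 1-nearly independent sets. -/
noncomputable def sigma1 {V : Type} [Fintype V] (G : SimpleGraph V) : ℕ :=
  (univ.filter (NearlyIndependent G)).card

/-- `S₁(G)`, the sum of the cardinalities of the 1-nearly independent sets. -/
noncomputable def size1 {V : Type} [Fintype V] (G : SimpleGraph V) : ℕ :=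
  ∑ S ∈ univ.filter (NearlyIndependent G), S.card

/-- `av₁(G)`, the average cardinality of a 1-nearly independent set. -/
noncomputable def av1 {V : Type} [Fintype V] (G : SimpleGraph V) : ℝ :=
  (size1 G : ℝ) / (sigma1 G : ℝ)

/-- The tree `R_n` on `{0,…,n-1}`: the star with centre `0` and leaves `1, 3, 4, …, n-1`,
and the further vertex `2` joined to the leaf `1`. -/
def R (n : ℕ) : SimpleGraph (Fin n) :=
  SimpleGraph.fromRel (fun i j => (i.val = 0 ∧ j.val ≠ 2) ∨ (i.val = 1 ∧ j.val = 2))

open Pool.Agent.X54.NearA Pool.Agent.X54.NearB Pool.Agent.X54.NearC Pool.Agent.X54.NearD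

lemma filter_eq {V : Type} [Fintype V] (G : SimpleGraph V) :
    univ.filter (NearlyIndependent G) = NI G := by
  unfold NI
  apply filter_congr
  intro S _
  unfold NearlyIndependent
  rw [ncard_induce]

lemma sigma1_eq {V : Type} [Fintype V] (G : SimpleGraph V) : sigma1 G = (NI G).card := by
  unfold sigma1; rw [filter_eq]

lemma size1_eq {V : Type} [Fintype V] (G : SimpleGraph V) : size1 G = ∑ S ∈ NI G, S.card := by
  unfold size1; rw [filter_eq]

lemma R_vals (m : ℕ) : sigma1 (R (3 + m)) = 2 ^ m + 2 * m + 1 ∧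
    2 * size1 (R (3 + m)) = (m + 4) * 2 ^ m + 2 * (5 * m + 2) := by
  have h1 : R (3 + m) = Rgraph (3 + m) := rfl
  rw [sigma1_eq, size1_eq, h1, NI_card (desc_R (3 + m)), NI_sum (desc_R (3 + m))]
  exact Z_R_vals m

lemma av_le {V W : Type} [Fintype V] [Fintype W] (G : SimpleGraph V) (H : SimpleGraph W)
    (hH : 0 < sigma1 H) (h : size1 G * sigma1 H ≤ sigma1 G * size1 H) : av1 G ≤ av1 H := by
  unfold av1
  rcases Nat.eq_zero_or_pos (sigma1 G) with h0 | h0
  · rw [h0]; simp only [Nat.cast_zero, div_zero]; positivity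
  · rw [div_le_div_iff₀ (by exact_mod_cast h0) (by exact_mod_cast hH)]
    have : size1 G * sigma1 H ≤ size1 H * sigma1 G := by rw [mul_comm (size1 H)]; exact h
    exact_mod_cast this

lemma pow_bound (m : ℕ) (hm : 7 ≤ m) : 6 * m ^ 2 ≤ 2 ^ (m + 1) + 7 * m + 2 := by
  have h1 : ∀ k : ℕ, 6 ≤ k → 12 * k ≤ 2 ^ (k + 1) := by
    intro k hk
    induction k, hk using Nat.le_induction with
    | base => norm_num
    | succ k hk ih => rw [pow_succ]; omega
  induction m, hm using Nat.le_induction with
  | base => norm_num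
  | succ m hm ih =>
    have := h1 m (by omega)
    rw [pow_succ 2 (m + 1)]
    nlinarith

lemma R_isTree (n : ℕ) (hn : 4 ≤ n) : (R n).IsTree := by
  rw [SimpleGraph.isTree_iff_connected_and_card]
  constructor
  · have : Nonempty (Fin n) := ⟨⟨0, by omega⟩⟩
    refine SimpleGraph.Connected.mk ?_
    have hadj0 : ∀ j : Fin n, j.val ≠ 0 → j.val ≠ 2 → (R n).Adj j ⟨0, by omega⟩ := by
      intro j h1 h2
      simp only [R, SimpleGraph.fromRel_adj]
      refine ⟨fun h => h1 (by rw [h]), Or.inr (Or.inl ⟨trivial, h2⟩)⟩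
    have hreach : ∀ j : Fin n, (R n).Reachable j ⟨0, by omega⟩ := by
      intro j
      by_cases h0 : j.val = 0
      · have : j = ⟨0, by omega⟩ := Fin.ext h0
        rw [this]
      by_cases h2 : j.val = 2
      · have h21 : (R n).Adj j ⟨1, by omega⟩ := by
          simp only [R, SimpleGraph.fromRel_adj]
          refine ⟨fun h => by rw [h] at h2; simp at h2, Or.inr (Or.inr ⟨trivial, h2⟩)⟩
        exact h21.reachable.trans (hadj0 ⟨1, by omega⟩ (by simp) (by simp)).reachable
      · exact (hadj0 j h0 h2).reachable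
    intro i j
    exact (hreach i).trans (hreach j).symm
  · have h1 : ind (R n) univ = (R n).edgeFinset := by
      unfold ind; ext e; simp
    have h2 := ind_card (desc_R n) univ
    have h3 : (ind (Rgraph n) univ).card = Nat.card (R n).edgeSet := by
      change (ind (R n) univ).card = _
      rw [h1, Nat.card_eq_fintype_card, SimpleGraph.edgeFinset_card]
    rw [← h3, h2, Nat.card_eq_fintype_card, Fintype.card_fin]
    have h4 : code (Equiv.refl (Fin n)) univ = range n := by
      apply Subset.antisymm (code_subset _ _)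
      intro i hi
      exact (mem_code (Equiv.refl (Fin n)) univ ⟨i, mem_range.1 hi⟩).2 (mem_univ _)
    rw [h4]
    unfold eN
    have h5 : (range n).filter (fun i => i ≠ 0 ∧ pR i ∈ range n) = (range n).erase 0 := by
      ext i
      simp only [mem_filter, mem_erase, mem_range, pR]
      split_ifs <;> constructor <;> intro h <;> omega
    rw [h5, card_erase_of_mem (mem_range.2 (by omega)), card_range]
    omega

theorem result : ∀ n : ℕ, 4 ≤ n → (R n).IsTree ∧
    ∀ (V : Type) [Fintype V] (T : SimpleGraph V), Fintype.card V = n → T.IsTree →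
      av1 T ≤ av1 (R n) := by
  intro n hn
  refine ⟨R_isTree n hn, ?_⟩
  intro V _ T hc hT
  obtain ⟨m, rfl⟩ := Nat.exists_eq_add_of_le (show 3 ≤ n by omega)
  obtain ⟨hR1, hR2⟩ := R_vals m
  have hRpos : 0 < sigma1 (R (3 + m)) := by rw [hR1]; positivity
  -- small cases
  have small : ∀ k : ℕ, k + 1 = 3 + m →
      chk (sigma1 (R (3 + m))) (size1 (R (3 + m))) k (init (k + 1)) = true →
      av1 T ≤ av1 (R (3 + m)) := by
    intro k hk hchk
    obtain ⟨e, p, hD⟩ := exists_desc k V T (by rw [hc, hk]) hT
    apply av_le T _ hRpos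
    rw [sigma1_eq T, size1_eq T, NI_card hD, NI_sum hD]
    exact chk_sound _ _ k _ hchk p (fun i hi hik => hD.lt i hi (by omega)) _ _
      (fun i hi => init_get (k + 1) i (by omega))
  by_cases hgood : ∀ a b : V, T.Adj a b → (2 ≤ (B T a b).card ∨
      (1 ≤ (B T a b).card ∧ ∃ x ∈ A T a b, ∃ y ∈ A T a b, T.Adj x y))
  · have hineq := good_ineq hgood
    rw [hc] at hineq
    have big : (3 * (3 + m) + 1) * sigma1 (R (3 + m)) ≤ 6 * size1 (R (3 + m)) →
        av1 T ≤ av1 (R (3 + m)) := by
      intro h
      apply av_le T _ hRpos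
      rw [sigma1_eq T, size1_eq T]
      have h1 : 6 * ((∑ S ∈ NI T, S.card) * sigma1 (R (3 + m))) ≤
          6 * ((NI T).card * size1 (R (3 + m))) := by
        calc 6 * ((∑ S ∈ NI T, S.card) * sigma1 (R (3 + m)))
            = (6 * ∑ S ∈ NI T, S.card) * sigma1 (R (3 + m)) := by ring
          _ ≤ ((3 * (3 + m) + 1) * (NI T).card) * sigma1 (R (3 + m)) :=
              Nat.mul_le_mul_right _ hineq
          _ = (NI T).card * ((3 * (3 + m) + 1) * sigma1 (R (3 + m))) := by ring
          _ ≤ (NI T).card * (6 * size1 (R (3 + m))) := Nat.mul_le_mul_left _ h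
          _ = 6 * ((NI T).card * size1 (R (3 + m))) := by ring
      exact Nat.le_of_mul_le_mul_left h1 (by norm_num)
    have hbig : 6 * m ^ 2 ≤ 2 ^ (m + 1) + 7 * m + 2 → av1 T ≤ av1 (R (3 + m)) := by
      intro h
      apply big
      rw [show 6 * size1 (R (3 + m)) = 3 * (2 * size1 (R (3 + m))) by ring, hR1, hR2]
      rw [pow_succ 2 m] at h
      nlinarith
    have hm : m = 1 ∨ m = 2 ∨ m = 3 ∨ m = 4 ∨ m = 5 ∨ m = 6 ∨ 7 ≤ m := by omega
    rcases hm with rfl | rfl | rfl | rfl | rfl | rfl | hm
    · exact hbig (by norm_num)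
    · exact hbig (by norm_num)
    · apply small 5 rfl
      have h2 : size1 (R (3 + 3)) = 5*6-13+7*2^2 := by omega
      rw [hR1, h2]; exact chk6
    · apply small 6 rfl
      have h2 : size1 (R (3 + 4)) = 5*7-13+8*2^3 := by omega
      rw [hR1, h2]; exact chk7
    · apply small 7 rfl
      have h2 : size1 (R (3 + 5)) = 5*8-13+9*2^4 := by omega
      rw [hR1, h2]; exact chk8
    · apply small 8 rfl
      have h2 : size1 (R (3 + 6)) = 5*9-13+10*2^5 := by omega
      rw [hR1, h2]; exact chk9
    · exact hbig (pow_bound m hm)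
  · push Not at hgood
    obtain ⟨a, b, hab, h1, h2⟩ := hgood
    have hex := exceptional hT (by omega) hab (by
      rintro (h | ⟨h, x, hx, y, hy, hxy⟩)
      · omega
      · exact h2 h x hx y hy hxy)
    rw [hc] at hex
    obtain ⟨e, hD⟩ := hex
    have hs : sigma1 T = sigma1 (R (3 + m)) := by
      rw [sigma1_eq, sigma1_eq, NI_card hD]
      exact (NI_card (desc_R (3 + m))).symm
    have hz : size1 T = size1 (R (3 + m)) := by
      rw [size1_eq, size1_eq, NI_sum hD]
      exact (NI_sum (desc_R (3 + m))).symm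
    unfold av1
    rw [hs, hz]

end Pool.Agent.Results.MP_635878_co.AverageSize
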